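import Pool.Agent.W653.SC.Defs

/-!
# A nonzero covariant function of finitely many group elements
-/

open MeasureTheory Matrix Filter Topology
open scoped Matrix.Norms.Frobenius ContDiff

namespace Pool.Agent.W646.SC

open Pool.Agent.H906R3.YM Pool.Agent.W58 Pool.Agent.W653.CF Pool.Agent.W653.SC

set_option linter.unusedSectionVars false
set_option linter.unusedVariables false

noncomputable section

section alg

variable {G : Type} [Group G] {N M : ℕ} (rho : G →* Mat N) (r : G →* Mat M)

/-- finitely many group elements whose matrices span -/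
lemma exists_gens : ∃ (k : ℕ) (g : Fin k → G), ∀ h,
    rho h ∈ Submodule.span ℝ (Set.range fun i => rho (g i)) := by
  classical
  have hfg : (Submodule.span ℝ (Set.range rho)).FG := IsNoetherian.noetherian _
  obtain ⟨s', hs', hspan⟩ := (Submodule.fg_span_iff_fg_span_finset_subset _).1 hfg
  have h1 : ∀ x : s', ∃ g : G, rho g = (x : Mat N) := fun x => hs' x.2
  choose g hg using h1
  refine ⟨s'.card, fun i => g (s'.equivFin.symm i), fun h => ?_⟩
  have h2 : rho h ∈ Submodule.span ℝ (Set.range rho) := Submodule.subset_span ⟨h, rfl⟩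
  rw [hspan] at h2
  refine Submodule.span_mono ?_ h2
  intro x hx
  refine ⟨s'.equivFin ⟨x, hx⟩, ?_⟩
  simp only [Equiv.symm_apply_apply, hg]

lemma central_of_commute (hinj : Function.Injective rho) {k : ℕ} {g : Fin k → G}
    (hg : ∀ h, rho h ∈ Submodule.span ℝ (Set.range fun i => rho (g i))) {w : G}
    (hw : ∀ i, w * g i = g i * w) : ∀ h, w * h = h * w := by
  intro h
  apply hinj
  rw [map_mul, map_mul]
  refine Submodule.span_induction (p := fun x _ => rho w * x = x * rho w) ?_ ?_ ?_ ?_ (hg h)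
  · rintro _ ⟨i, rfl⟩
    dsimp only
    rw [← map_mul, ← map_mul, hw i]
  · rw [mul_zero, zero_mul]
  · intro x y _ _ hx hy
    rw [mul_add, add_mul, hx, hy]
  · intro a x _ hx
    rw [mul_smul_comm, smul_mul_assoc, hx]

/-- the conjugates -/
def cj {k : ℕ} (g : Fin k → G) (h : G) : Fin k → Mat N :=
  fun i => (rho h)ᴴ * rho (g i) * rho h

lemma inv_eq (hu : ∀ g, rho g * (rho g)ᴴ = 1) (h : G) : rho h⁻¹ = (rho h)ᴴ := by
  have h1 : rho h⁻¹ * rho h = 1 := by rw [← map_mul, inv_mul_cancel, map_one]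
  calc rho h⁻¹ = rho h⁻¹ * (rho h * (rho h)ᴴ) := by rw [hu, mul_one]
    _ = (rho h)ᴴ := by rw [← mul_assoc, h1, one_mul]

lemma cj_fac (hinj : Function.Injective rho) (hu : ∀ g, rho g * (rho g)ᴴ = 1)
    (hz : ∀ z : G, (∀ h, z * h = h * z) → r z = 1) {k : ℕ} {g : Fin k → G}
    (hg : ∀ h, rho h ∈ Submodule.span ℝ (Set.range fun i => rho (g i))) {h h' : G}
    (he : cj rho g h = cj rho g h') : r h = r h' := by
  have h1 : ∀ i, h⁻¹ * g i * h = h'⁻¹ * g i * h' := by
    intro i
    apply hinj
    rw [map_mul, map_mul, map_mul, map_mul, inv_eq rho hu, inv_eq rho hu]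
    exact congrFun he i
  have h2 : ∀ i, (h' * h⁻¹) * g i = g i * (h' * h⁻¹) := by
    intro i
    have h3 := h1 i
    calc (h' * h⁻¹) * g i = h' * (h⁻¹ * g i * h) * h⁻¹ := by group
      _ = h' * (h'⁻¹ * g i * h') * h⁻¹ := by rw [h3]
      _ = _ := by group
  have h3 := hz _ (central_of_commute rho hinj hg h2)
  have h4 : h' = (h' * h⁻¹) * h := by group
  calc r h = 1 * r h := (one_mul _).symm
    _ = r (h' * h⁻¹) * r h := by rw [h3]
    _ = r h' := by rw [← map_mul, ← h4]

end alg

/-- smooth functions restricted to a set -/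
def smA {P : Type} [NormedAddCommGroup P] [NormedSpace ℝ P] (D : Set P) :
    Subalgebra ℝ C(D, ℝ) where
  carrier := {F | ∃ φ : P → ℝ, ContDiff ℝ ∞ φ ∧ ∀ d : D, F d = φ d}
  mul_mem' := by
    rintro F F' ⟨f, hf, h⟩ ⟨f', hf', h'⟩
    exact ⟨fun M => f M * f' M, hf.mul hf', fun U => by rw [ContinuousMap.mul_apply, h, h']⟩
  add_mem' := by
    rintro F F' ⟨f, hf, h⟩ ⟨f', hf', h'⟩
    exact ⟨fun M => f M + f' M, hf.add hf', fun U => by rw [ContinuousMap.add_apply, h, h']⟩
  algebraMap_mem' := fun r => ⟨fun _ => r, contDiff_const, fun U => rfl⟩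

/-- Smooth approximation of functions which factor through a map to a normed space. -/
lemma approx {P : Type} [NormedAddCommGroup P] [NormedSpace ℝ P] {G : Type} [TopologicalSpace G]
    [CompactSpace G] {c : G → P} (hc : Continuous c)
    (hsep : ∀ x y : P, x ≠ y → ∃ φ : P → ℝ, ContDiff ℝ ∞ φ ∧ φ x ≠ φ y) {u : G → ℝ}
    (huc : Continuous u) (hufac : ∀ h h', c h = c h' → u h = u h') {ε : ℝ} (hε : 0 < ε) :
    ∃ φ : P → ℝ, ContDiff ℝ ∞ φ ∧ ∀ h, |φ (c h) - u h| ≤ ε := by
  set D : Set P := Set.range c with hD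
  have hDc : CompactSpace D := isCompact_iff_compactSpace.1 (isCompact_range hc)
  let c' : G → D := fun h => ⟨c h, ⟨h, rfl⟩⟩
  have hc'c : Continuous c' := hc.subtype_mk _
  have hc's : Function.Surjective c' := by
    rintro ⟨_, h, rfl⟩
    exact ⟨h, rfl⟩
  have hq : IsQuotientMap c' := hc'c.isClosedMap.isQuotientMap hc'c hc's
  choose s hs using hc's
  let ψ : C(D, ℝ) := ⟨fun d => u (s d), by
    rw [hq.continuous_iff]
    have : (fun d => u (s d)) ∘ c' = u := by
      funext h
      exact hufac _ _ (congrArg Subtype.val (hs (c' h)))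
    rw [this]
    exact huc⟩
  have hψ : ∀ h, ψ (c' h) = u h := fun h => hufac _ _ (congrArg Subtype.val (hs (c' h)))
  have hsepA : (smA D).SeparatesPoints := by
    intro x y hxy
    obtain ⟨φ, hφ, hne⟩ := hsep x y (fun h => hxy (Subtype.ext h))
    refine ⟨fun d => φ d, ?_, hne⟩
    exact ⟨⟨fun d => φ d, hφ.continuous.comp continuous_subtype_val⟩, ⟨φ, hφ, fun d => rfl⟩, rfl⟩
  obtain ⟨⟨γ, φ, hφ, hφγ⟩, hγ⟩ :=
    ContinuousMap.exists_mem_subalgebra_near_continuousMap_of_separatesPoints (smA D) hsepA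
      ψ _ hε
  refine ⟨φ, hφ, fun h => ?_⟩
  have h1 := (ContinuousMap.norm_coe_le_norm (γ - ψ) (c' h)).trans hγ.le
  rw [ContinuousMap.sub_apply, hφγ, hψ, Real.norm_eq_abs] at h1
  exact h1

lemma mat_sep {N k : ℕ} (x y : Fin k → Mat N) (hxy : x ≠ y) :
    ∃ φ : (Fin k → Mat N) → ℝ, ContDiff ℝ ∞ φ ∧ φ x ≠ φ y := by
  have h1 : ∃ i a b, x i a b ≠ y i a b := by
    by_contra hcon
    push Not at hcon
    apply hxy
    funext i
    ext a b
    exact hcon i a b
  obtain ⟨i, a, b, hab⟩ := h1
  have h2 : ∃ t : Bool, co (a, b, t) (x i) ≠ co (a, b, t) (y i) := by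
    by_contra hcon
    push Not at hcon
    apply hab
    apply Complex.ext
    · exact hcon true
    · exact hcon false
  obtain ⟨t, ht⟩ := h2
  exact ⟨fun p => co (a, b, t) (p i),
    (co (a, b, t)).contDiff.comp (contDiff_apply ℝ (Mat N) i), ht⟩

theorem eqv_main (hpar : StmtPar) : StmtEqv := by
  intro G _ _ _ _ _ _ _ _ μ _ _ _ N M rho r hrc hinj hu hr hru hM hz
  obtain ⟨k, g, hg⟩ := exists_gens rho
  set i0 : Fin M := ⟨0, hM⟩ with hi0
  -- the continuous map to the conjugates
  have hcc : Continuous (cj rho g) := by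
    refine continuous_pi fun i => ?_
    exact (hrc.matrix_conjTranspose.mul continuous_const).mul hrc
  -- the function
  let u : G → ℝ := fun h => (r h i0 i0).re
  have huc : Continuous u := Complex.continuous_re.comp (hr.matrix_elem i0 i0)
  have hufac : ∀ h h', cj rho g h = cj rho g h' → u h = u h' := by
    intro h h' he
    have := cj_fac rho r hinj hu hz hg he
    show (r h i0 i0).re = (r h' i0 i0).re
    rw [this]
  have hu1 : u 1 = 1 := by
    show (r 1 i0 i0).re = 1
    rw [map_one, Matrix.one_apply_eq]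
    rfl
  obtain ⟨C, hC⟩ := isCompact_univ.exists_bound_of_continuousOn huc.continuousOn
  have hC' : ∀ h, |u h| ≤ C := fun h => hC h (Set.mem_univ h)
  have hC0 : 0 ≤ C := (abs_nonneg _).trans (hC' 1)
  have hpos : 0 < ∫ h, u h * u h ∂μ := by
    refine Continuous.integral_pos_of_hasCompactSupport_nonneg_nonzero (x := 1)
      (huc.mul huc) (HasCompactSupport.of_compactSpace _) (fun h => mul_self_nonneg _) ?_
    rw [hu1]; norm_num
  set T : ℝ := ∫ h, u h * u h ∂μ with hT
  have hε : 0 < T / (2 * (C + 1)) := by positivity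
  obtain ⟨φ, hφ, hclose⟩ := approx hcc mat_sep huc hufac hε
  have hφc : Continuous fun h => φ (cj rho g h) := hφ.continuous.comp hcc
  have hI : 0 < ∫ h, φ (cj rho g h) * u h ∂μ := by
    have i1 : Integrable (fun h => u h * u h) μ :=
      (huc.mul huc).integrable_of_hasCompactSupport (HasCompactSupport.of_compactSpace _)
    have i2 : Integrable (fun h => φ (cj rho g h) * u h) μ :=
      (hφc.mul huc).integrable_of_hasCompactSupport (HasCompactSupport.of_compactSpace _)
    have h1 : ∫ h, (φ (cj rho g h) - u h) * u h ∂μ = (∫ h, φ (cj rho g h) * u h ∂μ) - T := by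
      rw [hT, ← integral_sub i2 i1]
      refine integral_congr_ae (Eventually.of_forall fun h => ?_)
      simp only
      ring
    have h2 : ‖∫ h, (φ (cj rho g h) - u h) * u h ∂μ‖ ≤ T / (2 * (C + 1)) * C := by
      refine (norm_integral_le_of_norm_le_const (μ := μ) (C := T / (2 * (C + 1)) * C)
        (Eventually.of_forall fun h => ?_)).trans (le_of_eq (by simp))
      rw [norm_mul, Real.norm_eq_abs, Real.norm_eq_abs]
      exact mul_le_mul (hclose h) (hC' h) (abs_nonneg _) hε.le
    rw [h1, Real.norm_eq_abs] at h2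
    have h3 : T / (2 * (C + 1)) * C < T := by
      rw [div_mul_eq_mul_div, div_lt_iff₀ (by positivity)]
      nlinarith
    have h4 := (abs_le.1 h2).1
    linarith
  -- the function `F`
  let v : Fin M → ℂ := Pi.single i0 1
  let f : (Fin k → Mat N) → Fin M → ℂ := fun A =>
    ∫ h, φ (fun i => (rho h)ᴴ * A i * rho h) • (r h).mulVec v ∂μ
  have hf : ContDiff ℝ ∞ f := by
    let ψ' : (Mat N × (Fin M → ℂ)) × (Fin k → Mat N) → Fin M → ℂ := fun q =>
      φ (fun i => (ctL N q.1.1) * q.2 i * q.1.1) • q.1.2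
    have hψ' : ContDiff ℝ ∞ ψ' := by
      have e0 : ContDiff ℝ ∞ fun q : (Mat N × (Fin M → ℂ)) × (Fin k → Mat N) => q.1.2 :=
        contDiff_snd.comp contDiff_fst
      have e3 : ContDiff ℝ ∞ fun q : (Mat N × (Fin M → ℂ)) × (Fin k → Mat N) =>
          φ (fun i => (ctL N q.1.1) * q.2 i * q.1.1) := by
        refine hφ.comp ?_
        rw [contDiff_pi]
        intro i
        have e1 : ContDiff ℝ ∞ fun q : (Mat N × (Fin M → ℂ)) × (Fin k → Mat N) => q.1.1 :=
          contDiff_fst.comp contDiff_fst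
        have e2 : ContDiff ℝ ∞ fun q : (Mat N × (Fin M → ℂ)) × (Fin k → Mat N) => q.2 i :=
          (contDiff_apply ℝ (Mat N) i).comp contDiff_snd
        exact (((ctL N).contDiff.comp e1).mul e2).mul e1
      exact e3.smul e0
    have hcv : Continuous fun h => ((rho h, (r h).mulVec v) : Mat N × (Fin M → ℂ)) :=
      hrc.prodMk (hr.matrix_mulVec continuous_const)
    exact hpar G (Mat N × (Fin M → ℂ)) (Fin k → Mat N) (Fin M → ℂ) μ
      (fun h => (rho h, (r h).mulVec v)) ψ' hcv hψ'
  refine ⟨k, fun U => f fun i => rho (U i), f, hf, fun U => rfl, ?_, g, ?_⟩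
  · intro h U
    show (∫ x, φ (fun i => (rho x)ᴴ * rho (h * U i * h⁻¹) * rho x) • (r x).mulVec v ∂μ) =
      (r h).mulVec (∫ x, φ (fun i => (rho x)ᴴ * rho (U i) * rho x) • (r x).mulVec v ∂μ)
    rw [← integral_mul_left_eq_self (μ := μ) (fun x => φ (fun i => (rho x)ᴴ *
      rho (h * U i * h⁻¹) * rho x) • (r x).mulVec v) h]
    have hL : ∀ w : Fin M → ℂ, (r h).mulVec w =
        LinearMap.toContinuousLinearMap ((r h).mulVecLin.restrictScalars ℝ) w := fun w => rfl
    have hint : Integrable (fun x => φ (fun i => (rho x)ᴴ * rho (U i) * rho x) •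
        (r x).mulVec v) μ := by
      refine Continuous.integrable_of_hasCompactSupport ?_ (HasCompactSupport.of_compactSpace _)
      refine Continuous.smul (hφ.continuous.comp (continuous_pi fun i => ?_))
        (hr.matrix_mulVec continuous_const)
      exact (hrc.matrix_conjTranspose.mul continuous_const).mul hrc
    rw [hL, ← ContinuousLinearMap.integral_comp_comm _ hint]
    refine integral_congr_ae (Eventually.of_forall fun x => ?_)
    simp only
    rw [map_smul, ← hL, Matrix.mulVec_mulVec, ← map_mul r h x]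
    congr 2
    funext i
    rw [map_mul, map_mul, map_mul, inv_eq rho hu, conjTranspose_mul]
    have hu' : (rho h)ᴴ * rho h = 1 := mul_eq_one_comm.1 (hu h)
    calc (rho x)ᴴ * (rho h)ᴴ * (rho h * rho (U i) * (rho h)ᴴ) * (rho h * rho x) =
        (rho x)ᴴ * ((rho h)ᴴ * rho h) * rho (U i) * ((rho h)ᴴ * rho h) * rho x := by
          noncomm_ring
      _ = _ := by rw [hu', mul_one, mul_one]
  · intro h0
    have hint : Integrable (fun x => φ (fun i => (rho x)ᴴ * rho (g i) * rho x) •
        (r x).mulVec v) μ := by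
      refine Continuous.integrable_of_hasCompactSupport ?_ (HasCompactSupport.of_compactSpace _)
      refine Continuous.smul (hφ.continuous.comp (continuous_pi fun i => ?_))
        (hr.matrix_mulVec continuous_const)
      exact (hrc.matrix_conjTranspose.mul continuous_const).mul hrc
    let Lm : (Fin M → ℂ) →L[ℝ] ℝ :=
      Complex.reCLM.comp (ContinuousLinearMap.proj (R := ℝ) (φ := fun _ : Fin M => ℂ) i0)
    have h1 : Lm (∫ x, φ (fun i => (rho x)ᴴ * rho (g i) * rho x) • (r x).mulVec v ∂μ) =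
        ∫ h, φ (cj rho g h) * u h ∂μ := by
      rw [← ContinuousLinearMap.integral_comp_comm _ hint]
      refine integral_congr_ae (Eventually.of_forall fun x => ?_)
      simp only
      rw [map_smul, smul_eq_mul]
      congr 1
      show ((r x).mulVec v i0).re = (r x i0 i0).re
      congr 1
      simp [v, Matrix.mulVec_single]
    have h2 : (∫ x, φ (fun i => (rho x)ᴴ * rho (g i) * rho x) • (r x).mulVec v ∂μ) = 0 := h0
    rw [h2, map_zero] at h1
    exact hI.ne h1

end

end Pool.Agent.W646.SC
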