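import Pool.Agent.W653.SC.Defs

/-!
# Central elements have finite order if the curvature is positive
-/

open MeasureTheory Matrix Filter Topology
open scoped Matrix.Norms.Frobenius ContDiff

namespace Pool.Agent.W646.SC

open Pool.Agent.H906R3.YM Pool.Agent.W58 Pool.Agent.W653.CF Pool.Agent.W653.SC
open Pool.Agent.W504.YM

set_option linter.unusedSectionVars false
set_option linter.unusedVariables false

noncomputable section

variable {N n : ℕ} {G : Subgroup (UN N)}

/-- an element of the Lie algebra commuting with the basis vanishes -/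
lemma central_zero (B : Frame G n) {K : ℝ} (hK : 0 < K) (hC : Curv B.toLD K) {W : Mat N}
    (hW : W ∈ Submodule.span ℝ (Set.range B.X)) (hcom : ∀ a, W * B.X a = B.X a * W) : W = 0 := by
  obtain ⟨v, hv⟩ := (Submodule.mem_span_range_iff_exists_fun ℝ).1 hW
  have h1 : ∀ a b, ∑ c, B.toLD.sc a b c * v c = 0 := by
    intro a b
    have e1 : ip (B.X a * B.X b - B.X b * B.X a) W = ∑ c, B.toLD.sc a b c * v c := by
      have hs : ∑ c, B.toLD.sc a b c • B.X c = B.X a * B.X b - B.X b * B.X a := sc_spec a b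
      rw [← hs, ip_comm, map_sum]
      refine Finset.sum_congr rfl fun c _ => ?_
      rw [map_smul, smul_eq_mul, ip_comm, ← hv, map_sum]
      congr 1
      have h2 : ∀ d, ip (B.X c) (v d • B.X d) = v d * if c = d then 1 else 0 := fun d => by
        rw [map_smul, smul_eq_mul]
        congr 1
        exact B.orth c d
      rw [Finset.sum_congr rfl fun d _ => h2 d]
      simp
    rw [← e1, ip_apply, conjTranspose_sub, conjTranspose_mul, conjTranspose_mul, B.skewX, B.skewX]
    have e2 : (-B.X b * -B.X a - -B.X a * -B.X b) * W =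
        B.X b * (B.X a * W) - B.X a * (B.X b * W) := by noncomm_ring
    rw [e2, trace_sub, trace_mul_comm (B.X a) (B.X b * W), mul_assoc (B.X b) W, hcom a, sub_self]
    simp
  have h2 := hC v
  simp only [h1] at h2
  have h3 : ∑ c, v c ^ 2 = 0 := by
    have h4 : 0 ≤ ∑ c, v c ^ 2 := Finset.sum_nonneg fun c _ => sq_nonneg _
    have h5 : 4 * K * ∑ c, v c ^ 2 ≤ 0 := by simpa using h2
    nlinarith
  have h4 : ∀ c, v c = 0 := fun c => by
    have := (Finset.sum_eq_zero_iff_of_nonneg fun c _ => sq_nonneg (v c)).1 h3 c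
      (Finset.mem_univ c)
    exact pow_eq_zero_iff two_ne_zero |>.1 this
  rw [← hv]
  simp [h4]

lemma exp_image_nhds {ε : ℝ} (hε : 0 < ε) :
    (NormedSpace.exp : Mat N → Mat N) '' Metric.ball 0 ε ∈ 𝓝 (1 : Mat N) := by
  have h1 : HasStrictFDerivAt (NormedSpace.exp : Mat N → Mat N) (1 : Mat N →L[ℝ] Mat N) 0 :=
    hasStrictFDerivAt_exp_zero
  have h2 := h1.map_nhds_eq_of_surj (by
    rw [LinearMap.range_eq_top]
    intro M
    exact ⟨M, rfl⟩)
  rw [NormedSpace.exp_zero] at h2
  have h3 := Filter.image_mem_map (m := (NormedSpace.exp : Mat N → Mat N))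
    (Metric.ball_mem_nhds (0 : Mat N) hε)
  exact (congrArg (fun F : Filter (Mat N) =>
    (NormedSpace.exp : Mat N → Mat N) '' Metric.ball 0 ε ∈ F) h2).mp h3

/-- The unit is isolated in the centre. -/
lemma isolated (hG : IsClosed (G : Set (UN N))) (B : Frame G n) {K : ℝ} (hK : 0 < K)
    (hC : Curv B.toLD K) : ∃ 𝒰 ∈ 𝓝 (1 : Mat N), ∀ z : G, (∀ h : G, z * h = h * z) →
      mt z ∈ 𝒰 → z = 1 := by
  by_contra hcon
  push Not at hcon
  have h1 : ∀ k : ℕ, ∃ (z : G) (Z : Mat N), (∀ h : G, z * h = h * z) ∧ z ≠ 1 ∧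
      ‖Z‖ < 1 / ((k : ℝ) + 1) ∧ NormedSpace.exp Z = mt z := by
    intro k
    have hk : (0 : ℝ) < 1 / ((k : ℝ) + 1) := by positivity
    obtain ⟨z, hz1, ⟨Z, hZ, hZz⟩, hz3⟩ := hcon _ (exp_image_nhds hk)
    exact ⟨z, Z, hz1, hz3, by simpa using hZ, hZz⟩
  choose z Z hz1 hz2 hZ1 hZ2 using h1
  have hZ0 : ∀ k, Z k ≠ 0 := by
    intro k h
    have h3 := hZ2 k
    rw [h, NormedSpace.exp_zero] at h3
    exact hz2 k (mt_inj h3.symm)
  have hn : ∀ k, 0 < ‖Z k‖ := fun k => norm_pos_iff.2 (hZ0 k)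
  have hprop : ProperSpace (Mat N) := FiniteDimensional.proper ℝ _
  have hcomp : IsCompact (Metric.sphere (0 : Mat N) 1) := isCompact_sphere _ _
  obtain ⟨W, hW, φ, hφ, hlim⟩ := hcomp.tendsto_subseq (x := fun k => ‖Z k‖⁻¹ • Z k) (fun k => by
    rw [mem_sphere_zero_iff_norm, norm_smul, norm_inv, norm_norm, inv_mul_cancel₀ (hn k).ne'])
  have hZt : Tendsto Z atTop (𝓝 0) :=
    tendsto_zero_iff_norm_tendsto_zero.2 (squeeze_zero (fun k => norm_nonneg _)
      (fun k => (hZ1 k).le) tendsto_one_div_add_atTop_nhds_zero_nat)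
  have h2 := fun s => lim_dir hG (fun k => hZ0 (φ k)) (hZt.comp hφ.tendsto_atTop) hlim
    (fun k => ⟨z (φ k), (hZ2 (φ k)).symm⟩) s
  have h3 := B.full W h2
  -- the differences
  have h4 : Tendsto (fun k => ‖Z (φ k)‖⁻¹ • (mt (z (φ k)) - 1)) atTop (𝓝 W) := by
    have hd : HasFDerivAt (NormedSpace.exp : Mat N → Mat N) (1 : Mat N →L[ℝ] Mat N) 0 :=
      (hasStrictFDerivAt_exp_zero (𝕂 := ℝ)).hasFDerivAt
    have ho := hd.isLittleO
    have hsub : Tendsto (fun k => Z (φ k)) atTop (𝓝 0) := hZt.comp hφ.tendsto_atTop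
    have ho2 := ho.comp_tendsto hsub
    have ho3 : (fun k => mt (z (φ k)) - 1 - Z (φ k)) =o[atTop] fun k => ‖Z (φ k)‖ := by
      refine (ho2.norm_right).congr' (Eventually.of_forall fun k => ?_)
        (Eventually.of_forall fun k => ?_)
      · simp only [Function.comp, NormedSpace.exp_zero, sub_zero, hZ2]
        rfl
      · simp only [Function.comp, sub_zero]
    have ho4 := ho3.tendsto_inv_smul_nhds_zero
    have h5 := ho4.add hlim
    rw [zero_add] at h5
    refine h5.congr fun k => ?_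
    simp only [Function.comp]
    rw [← smul_add]
    congr 1
    abel
  have h5 : ∀ g : G, W * mt g = mt g * W := by
    intro g
    have e1 : Tendsto (fun k => (‖Z (φ k)‖⁻¹ • (mt (z (φ k)) - 1)) * mt g) atTop
        (𝓝 (W * mt g)) := h4.mul_const _
    have e2 : Tendsto (fun k => mt g * (‖Z (φ k)‖⁻¹ • (mt (z (φ k)) - 1))) atTop
        (𝓝 (mt g * W)) := h4.const_mul _
    have e3 : ∀ k, (‖Z (φ k)‖⁻¹ • (mt (z (φ k)) - 1)) * mt g =
        mt g * (‖Z (φ k)‖⁻¹ • (mt (z (φ k)) - 1)) := by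
      intro k
      rw [smul_mul_assoc, mul_smul_comm]
      congr 1
      have e4 : mt (z (φ k)) * mt g = mt g * mt (z (φ k)) := by
        have e5 : mt (z (φ k) * g) = mt (z (φ k)) * mt g := rfl
        have e6 : mt (g * z (φ k)) = mt g * mt (z (φ k)) := rfl
        rw [← e5, ← e6, hz1]
      rw [sub_mul, mul_sub, e4, one_mul, mul_one]
    simp only [e3] at e1
    exact tendsto_nhds_unique e1 e2
  have h6 : ∀ a, W * B.X a = B.X a * W := by
    intro a
    have d1 : HasDerivAt (fun t => W * rhoG G (B.ex a t)) (W * B.X a) 0 :=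
      (B.deriv_ex a).const_mul W
    have d2 : HasDerivAt (fun t => rhoG G (B.ex a t) * W) (B.X a * W) 0 :=
      (B.deriv_ex a).mul_const W
    have e : (fun t => W * rhoG G (B.ex a t)) = fun t => rhoG G (B.ex a t) * W := by
      funext t
      exact h5 _
    rw [e] at d1
    exact d1.unique d2
  have h7 := central_zero B hK hC h3 h6
  rw [h7, mem_sphere_zero_iff_norm, norm_zero] at hW
  exact zero_ne_one hW

theorem ord_main : StmtOrd := by
  intro N n G hG B K hK hC z hz
  obtain ⟨𝒰, h𝒰, hiso⟩ := isolated hG B hK hC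
  have hcomp : CompactSpace G := isCompact_iff_compactSpace.1 hG.isCompact
  have i1 : SecondCountableTopology (UN N) := TopologicalSpace.Subtype.secondCountableTopology _
  have i2 : SecondCountableTopology G := TopologicalSpace.Subtype.secondCountableTopology _
  obtain ⟨g, φ, hφ, hlim⟩ := CompactSpace.tendsto_subseq (fun k : ℕ => z ^ k)
  have h1 : Tendsto (fun k => (z ^ φ k)⁻¹ * z ^ φ (k + 1)) atTop (𝓝 (g⁻¹ * g)) :=
    (hlim.inv).mul (hlim.comp (tendsto_add_atTop_nat 1))
  rw [inv_mul_cancel] at h1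
  have h2 : (mt (G := G)) ⁻¹' 𝒰 ∈ 𝓝 (1 : G) := by
    have hc : Continuous (mt (G := G)) := rhoG_cont (G := G)
    refine hc.continuousAt.preimage_mem_nhds ?_
    exact h𝒰
  obtain ⟨k, hk⟩ := (h1.eventually h2).exists
  have h3 : φ k < φ (k + 1) := hφ (Nat.lt_succ_self k)
  refine ⟨φ (k + 1) - φ k, by omega, ?_⟩
  have h4 : (z ^ φ k)⁻¹ * z ^ φ (k + 1) = z ^ (φ (k + 1) - φ k) := by
    rw [inv_mul_eq_iff_eq_mul, ← pow_add]
    congr 1
    omega
  have h5 : ∀ (m : ℕ) (h : G), z ^ m * h = h * z ^ m := by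
    intro m h
    exact (Commute.pow_left (show Commute z h from hz h) m).eq
  refine hiso _ (h5 _) ?_
  rw [← h4]
  exact hk

end

end Pool.Agent.W646.SC
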