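import Pool.Agent.W653.SC.Defs

/-!
# The string state for a general representation
-/

open MeasureTheory Matrix
open scoped Matrix.Norms.Frobenius ContDiff

namespace Pool.Agent.W646.SC

open Pool.Agent.H906R3.YM Pool.Agent.W58 Pool.Agent.W653.CF Pool.Agent.W653.SC

set_option linter.unusedSectionVars false
set_option linter.unusedVariables false

noncomputable section

section rep

variable {G : Type} [Group G] [TopologicalSpace G] {N n M : ℕ} {L : LD G N n}
  {E : Type*} [Fintype E] [DecidableEq E] {r : G →* Mat M}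

lemma r_unit' (hu : ∀ g, r g * (r g)ᴴ = 1) (g : G) : (r g)ᴴ * r g = 1 :=
  mul_eq_one_comm.1 (hu g)

lemma r_inv (hu : ∀ g, r g * (r g)ᴴ = 1) (g : G) : r g⁻¹ = (r g)ᴴ := by
  have h1 : r g⁻¹ * r g = 1 := by rw [← map_mul, inv_mul_cancel, map_one]
  calc r g⁻¹ = r g⁻¹ * (r g * (r g)ᴴ) := by rw [hu, mul_one]
    _ = (r g)ᴴ := by rw [← mul_assoc, h1, one_mul]

lemma tr_unit' (hu : ∀ g, r g * (r g)ᴴ = 1) (g h : G) (Y : Mat M) :
    (trace ((r g * Y * r h)ᴴ * (r g * Y * r h))).re = (trace (Yᴴ * Y)).re := by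
  have e : (r g * Y * r h)ᴴ * (r g * Y * r h) = (r h)ᴴ * (Yᴴ * Y * r h) := by
    rw [conjTranspose_mul, conjTranspose_mul]
    have h1 := r_unit' hu g
    calc (r h)ᴴ * (Yᴴ * (r g)ᴴ) * (r g * Y * r h) =
        (r h)ᴴ * (Yᴴ * ((r g)ᴴ * r g) * Y * r h) := by noncomm_ring
      _ = _ := by rw [h1, mul_one]
  rw [e, trace_mul_comm, mul_assoc, hu, mul_one]

/-- the derivative of the one parameter groups in the representation -/
def dr (L : LD G N n) (r : G →* Mat M) (a : Fin n) : Mat M := deriv (fun t : ℝ => r (L.ex a t)) 0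

lemma dr_has (hs : ∃ f : Mat N → Mat M, ContDiff ℝ ∞ f ∧ ∀ g, r g = f (L.rho g)) (a : Fin n) :
    HasDerivAt (fun t : ℝ => r (L.ex a t)) (dr L r a) 0 := by
  obtain ⟨f, hf, h⟩ := hs
  have h1 : (fun t : ℝ => r (L.ex a t)) = fun t => f (L.rho (L.ex a t)) := by
    funext t; exact h _
  have h2 : HasFDerivAt f (fderiv ℝ f (L.rho (L.ex a 0))) (L.rho (L.ex a 0)) :=
    (hf.differentiable (by simp)).differentiableAt.hasFDerivAt
  have h3 := h2.comp_hasDerivAt (0 : ℝ) (L.deriv_ex a)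
  have h4 : DifferentiableAt ℝ (fun t : ℝ => r (L.ex a t)) 0 := by
    rw [h1]; exact h3.differentiableAt
  exact h4.hasDerivAt

lemma tr_sq (Y : Mat M) : (trace (Yᴴ * Y)).re = ∑ i, ∑ j, ‖Y i j‖ ^ 2 := by
  rw [trace, Complex.re_sum, Finset.sum_comm]
  refine Finset.sum_congr rfl fun j _ => ?_
  rw [diag_apply, mul_apply, Complex.re_sum]
  refine Finset.sum_congr rfl fun i _ => ?_
  rw [conjTranspose_apply, ← Complex.normSq_eq_norm_sq, Complex.normSq_apply]
  simp [Complex.mul_re]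

lemma dr_entry (hs : ∃ f : Mat N → Mat M, ContDiff ℝ ∞ f ∧ ∀ g, r g = f (L.rho g)) (a : Fin n)
    (i j : Fin M) : deriv (fun t : ℝ => r (L.ex a t) i j) 0 = dr L r a i j := by
  have h := dr_has hs a
  have h1 : HasDerivAt (fun t : ℝ => r (L.ex a t) i) (dr L r a i) 0 := hasDerivAt_pi.1 h i
  exact (hasDerivAt_pi.1 h1 j).deriv

lemma cas_eq (hs : ∃ f : Mat N → Mat M, ContDiff ℝ ∞ f ∧ ∀ g, r g = f (L.rho g)) :
    cas L r = (∑ a, (trace ((dr L r a)ᴴ * dr L r a)).re) / M := by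
  unfold cas
  congr 1
  refine Finset.sum_congr rfl fun a _ => ?_
  rw [tr_sq]
  refine Finset.sum_congr rfl fun i _ => Finset.sum_congr rfl fun j _ => ?_
  rw [dr_entry hs]

lemma lnk_deriv' (hu : ∀ g, r g * (r g)ᴴ = 1)
    (hs : ∃ f : Mat N → Mat M, ContDiff ℝ ∞ f ∧ ∀ g, r g = f (L.rho g))
    (s : E × Bool) (a : Fin n) (U : E → G) :
    HasDerivAt (fun t => r (lnk s (L.shift s.1 a t U)))
      (if s.2 then dr L r a * r (U s.1) else (r (U s.1))ᴴ * (dr L r a)ᴴ) 0 := by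
  have h1 : HasDerivAt (fun t => r (L.ex a t * U s.1)) (dr L r a * r (U s.1)) 0 := by
    have : (fun t => r (L.ex a t * U s.1)) = fun t => r (L.ex a t) * r (U s.1) := by
      funext t
      rw [map_mul]
    rw [this]
    exact (dr_has hs a).mul_const _
  have e1 : ∀ t, L.shift s.1 a t U s.1 = L.ex a t * U s.1 := fun t => by
    unfold LD.shift
    rw [Pi.mul_apply, Pi.mulSingle_eq_same]
  unfold lnk
  by_cases h : s.2
  · simp only [h, if_true, e1]
    exact h1
  · simp only [h, Bool.false_eq_true, if_false, r_inv hu, e1]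
    have h2 := (ctL M).hasFDerivAt.comp_hasDerivAt (0 : ℝ) h1
    have h3 : (ctL M) (dr L r a * r (U s.1)) = (r (U s.1))ᴴ * (dr L r a)ᴴ := by
      rw [ctL_apply, conjTranspose_mul]
    exact h2.congr_deriv h3

/-- the square of the norm of the derivatives of a transporter -/
lemma hol_deriv' (hu : ∀ g, r g * (r g)ᴴ = 1)
    (hs : ∃ f : Mat N → Mat M, ContDiff ℝ ∞ f ∧ ∀ g, r g = f (L.rho g))
    {w : List (E × Bool)} (hw : (w.map Prod.fst).Nodup) (j : E × Fin n)
    (U : E → G) : ∃ Y : Mat M,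
      HasDerivAt (fun t => r (hol w (L.shift j.1 j.2 t U))) Y 0 ∧
      (trace (Yᴴ * Y)).re = if j.1 ∈ w.map Prod.fst then
        (trace ((dr L r j.2)ᴴ * dr L r j.2)).re else 0 := by
  induction w with
  | nil =>
    exact ⟨0, hasDerivAt_const (0 : ℝ) (r (1 : G)), by simp⟩
  | cons s w ih =>
    rw [List.map_cons, List.nodup_cons] at hw
    have e0 : (fun t => r (hol (s :: w) (L.shift j.1 j.2 t U))) =
        fun t => r (lnk s (L.shift j.1 j.2 t U)) * r (hol w (L.shift j.1 j.2 t U)) := by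
      funext t
      rw [hol_cons, map_mul]
    rw [e0]
    by_cases hj : s.1 = j.1
    · have h1 : ∀ t, hol w (L.shift j.1 j.2 t U) = hol w U := fun t =>
        hol_shift_ne (by rw [← hj]; exact hw.1) _ _ _
      have h2 := lnk_deriv' (L := L) hu hs s j.2 U
      rw [hj] at h2
      simp only [h1]
      refine ⟨_, h2.mul_const _, ?_⟩
      have hmem : j.1 ∈ List.map Prod.fst (s :: w) := by
        rw [List.map_cons, hj]; exact List.mem_cons_self
      rw [if_pos hmem]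
      by_cases hs : s.2
      · rw [if_pos hs]
        have h3 := tr_unit' hu 1 (U j.1 * hol w U) (dr L r j.2)
        rw [map_one, one_mul, map_mul] at h3
        rw [mul_assoc (dr L r j.2), h3]
      · rw [if_neg hs]
        have h3 := tr_unit' hu (U j.1)⁻¹ (hol w U) (dr L r j.2)ᴴ
        rw [r_inv hu] at h3
        rw [h3, conjTranspose_conjTranspose, trace_mul_comm]
    · obtain ⟨Y, hY, hYt⟩ := ih hw.2
      have h1 : ∀ t, lnk s (L.shift j.1 j.2 t U) = lnk s U := fun t => lnk_shift_ne hj _ _ _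
      simp only [h1]
      refine ⟨_, hY.const_mul _, ?_⟩
      have h3 := tr_unit' hu (lnk s U) 1 Y
      rw [map_one, mul_one] at h3
      rw [h3, hYt]
      have h4 : j.1 ∈ (s :: w).map Prod.fst ↔ j.1 ∈ w.map Prod.fst := by
        rw [List.map_cons, List.mem_cons]
        constructor
        · rintro (h5 | h5)
          · exact absurd h5.symm hj
          · exact h5
        · exact Or.inr
      simp only [h4]

/-- the real coordinate -/
def cc (c : (Fin M × Fin M) × Bool) : Mat M →L[ℝ] ℝ := co (c.1.1, c.1.2, c.2)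

lemma sum_cc_sq (Y : Mat M) : ∑ c, cc c Y ^ 2 = (trace (Yᴴ * Y)).re := by
  rw [← sum_co_sq]
  exact (Equiv.prodAssoc (Fin M) (Fin M) Bool).sum_comp fun c => co c Y ^ 2

/-- the real coordinates of the matrix of the transporter -/
def hr (hs : ∃ f : Mat N → Mat M, ContDiff ℝ ∞ f ∧ ∀ g, r g = f (L.rho g))
    (w : List (E × Bool)) (c : (Fin M × Fin M) × Bool) : Sm L E :=
  ⟨fun U => cc c (r (hol w U)), by
    obtain ⟨f, hf, h⟩ := hs
    obtain ⟨F, hF, h'⟩ := SmM_hol (L := L) w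
    refine ⟨fun M => cc c (f (F M)), (cc c).contDiff.comp (hf.comp hF), fun U => ?_⟩
    simp only [h, h']⟩

lemma hr_apply (hs : ∃ f : Mat N → Mat M, ContDiff ℝ ∞ f ∧ ∀ g, r g = f (L.rho g))
    (w : List (E × Bool)) (c : (Fin M × Fin M) × Bool) (U : E → G) :
    (hr hs w c).1 U = cc c (r (hol w U)) := rfl

lemma sum_hr_sq (hu : ∀ g, r g * (r g)ᴴ = 1)
    (hs : ∃ f : Mat N → Mat M, ContDiff ℝ ∞ f ∧ ∀ g, r g = f (L.rho g))
    (w : List (E × Bool)) : ∑ c, hr hs w c * hr hs w c = (M : ℝ) • (1 : Sm L E) := by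
  refine ev_ext fun U => ?_
  rw [map_sum, map_smul, map_one, smul_eq_mul, mul_one]
  have h1 : ∀ c, L.ev U (hr hs w c * hr hs w c) = cc c (r (hol w U)) ^ 2 := fun c => by
    rw [map_mul, sq]; rfl
  rw [Finset.sum_congr rfl fun c _ => h1 c, sum_cc_sq, r_unit' hu, trace_one]
  simp

lemma Dv_hr (hs : ∃ f : Mat N → Mat M, ContDiff ℝ ∞ f ∧ ∀ g, r g = f (L.rho g))
    (w : List (E × Bool)) (c : (Fin M × Fin M) × Bool) (j : E × Fin n) (U : E → G) {Y : Mat M}
    (hY : HasDerivAt (fun t => r (hol w (L.shift j.1 j.2 t U))) Y 0) :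
    (L.Dv j (hr hs w c)).1 U = cc c Y := by
  rw [Dv_apply]
  unfold LD.dF
  exact ((cc c).hasFDerivAt.comp_hasDerivAt (0 : ℝ) hY).deriv

lemma sum_hr_Dv (hu : ∀ g, r g * (r g)ᴴ = 1)
    (hs : ∃ f : Mat N → Mat M, ContDiff ℝ ∞ f ∧ ∀ g, r g = f (L.rho g))
    {w : List (E × Bool)} (hw : (w.map Prod.fst).Nodup) (j : E × Fin n) :
    ∑ c, L.Dv j (hr hs w c) * L.Dv j (hr hs w c) =
      (if j.1 ∈ w.map Prod.fst then (trace ((dr L r j.2)ᴴ * dr L r j.2)).re else 0) •
        (1 : Sm L E) := by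
  refine ev_ext fun U => ?_
  rw [map_sum, map_smul, map_one, smul_eq_mul, mul_one]
  obtain ⟨Y, hY, hYt⟩ := hol_deriv' hu hs hw j U
  have h1 : ∀ c, L.ev U (L.Dv j (hr hs w c) * L.Dv j (hr hs w c)) = cc c Y ^ 2 := fun c => by
    rw [map_mul, sq]
    have : (L.Dv j (hr hs w c)).1 U = cc c Y := Dv_hr hs w c j U hY
    rw [← this]
    rfl
  rw [Finset.sum_congr rfl fun c _ => h1 c, sum_cc_sq, hYt]

lemma sum_Gam_hr (hu : ∀ g, r g * (r g)ᴴ = 1)
    (hs : ∃ f : Mat N → Mat M, ContDiff ℝ ∞ f ∧ ∀ g, r g = f (L.rho g))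
    {w : List (E × Bool)} (hw : (w.map Prod.fst).Nodup) :
    ∑ c, Gam (L.Dv (E := E)) (hr hs w c) (hr hs w c) =
      ((∑ a, (trace ((dr L r a)ᴴ * dr L r a)).re) * w.length) • (1 : Sm L E) := by
  unfold Gam
  rw [Finset.sum_comm, Finset.sum_congr rfl fun j _ => sum_hr_Dv hu hs hw j, ← Finset.sum_smul]
  congr 1
  have h0 : ∀ e : E, ∑ a : Fin n, (if (e, a).1 ∈ w.map Prod.fst then
      (trace ((dr L r (e, a).2)ᴴ * dr L r (e, a).2)).re else 0) =
      (∑ a, (trace ((dr L r a)ᴴ * dr L r a)).re) * (if e ∈ w.map Prod.fst then (1 : ℝ) else 0) :=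
    fun e => by
      by_cases he : e ∈ w.map Prod.fst
      · simp only [he, if_true, mul_one]
      · simp only [he, if_false, mul_zero, Finset.sum_const_zero]
  rw [Fintype.sum_prod_type, Finset.sum_congr rfl fun e _ => h0 e, ← Finset.mul_sum]
  congr 1
  rw [Finset.sum_ite, Finset.sum_const_zero, add_zero, Finset.sum_const, nsmul_eq_mul, mul_one]
  have h1 : (Finset.univ.filter fun e => e ∈ w.map Prod.fst) = (w.map Prod.fst).toFinset := by
    ext e
    simp
  rw [h1, List.toFinset_card_of_nodup hw, List.length_map]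

end rep

theorem str_main : StmtStr := by
  intro G _ _ _ _ _ _ _ μ _ _ _ N n M D l _ L r hu hM hs x y g Ω hΩ hn
  obtain ⟨w, hw1, hw2, hw3, -⟩ := exists_geod y (dT x y) x rfl
  have hM' : (0 : ℝ) < M := by exact_mod_cast hM
  have hss : (Real.sqrt M)⁻¹ ^ 2 * M = 1 := by
    rw [inv_pow, Real.sq_sqrt hM'.le, inv_mul_cancel₀ hM'.ne']
  set q : ℝ := (Real.sqrt M)⁻¹ with hq
  set T : ℝ := ∑ a, (trace ((dr L r a)ᴴ * dr L r a)).re with hT
  have hcas : cas L r = T / M := cas_eq hs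
  have hval : ∀ c (U : Ed D l → G), (q • (hr hs w c * Ω)).1 U =
      q * (cc c (r (hol w U)) * Ω.1 U) := fun c U => rfl
  refine ⟨fun c => q • (hr hs w c * Ω), ?_, ?_, ?_⟩
  · intro γ U
    have hc : ∀ U : Ed D l → G, cmat (fun c => (q • (hr hs w c * Ω)).1) U =
        (q * Ω.1 U) • r (hol w U) := by
      intro U
      ext i j
      unfold cmat
      rw [Matrix.of_apply, Matrix.smul_apply]
      apply Complex.ext
      · show (q • (hr hs w ((i, j), true) * Ω)).1 U = _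
        rw [hval, Complex.real_smul, Complex.re_ofReal_mul]
        show q * ((r (hol w U) i j).re * Ω.1 U) = _
        ring
      · show (q • (hr hs w ((i, j), false) * Ω)).1 U = _
        rw [hval, Complex.real_smul, Complex.im_ofReal_mul]
        show q * ((r (hol w U) i j).im * Ω.1 U) = _
        ring
    rw [hc, hc]
    have h1 : Ω.1 (gt γ U) = Ω.1 U := congrArg (fun v : Sm L (Ed D l) => v.1 U) (hΩ γ)
    rw [h1, hol_gt hw1, map_mul, map_mul, r_inv hu, mul_smul_comm, smul_mul_assoc]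
  · have h2 : ∀ c, L.I μ ((q • (hr hs w c * Ω)) * (q • (hr hs w c * Ω))) =
        q ^ 2 * L.I μ ((hr hs w c * hr hs w c) * (Ω * Ω)) := fun c => by
      rw [smul_mul_smul_comm, map_smul, smul_eq_mul, sq, mul_mul_mul_comm]
    rw [Finset.sum_congr rfl fun c _ => h2 c, ← Finset.mul_sum, ← map_sum, ← Finset.sum_mul,
      sum_hr_sq hu, smul_mul_assoc, one_mul, map_smul, smul_eq_mul, hn, mul_one, hss]
  · have h2 : ∀ c, en μ g (q • (hr hs w c * Ω)) =
        q ^ 2 * (g ^ 2 / 2 * L.I μ (Gam (L.Dv (E := Ed D l)) (hr hs w c * Ω) (hr hs w c * Ω)) +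
          1 / g ^ 2 * L.I μ ((hr hs w c * hr hs w c) * (VT L D l * (Ω * Ω)))) := fun c => by
      unfold en
      rw [Gam_smul, Gam_comm, Gam_smul, smul_mul_smul_comm, mul_smul_comm, map_smul,
        map_smul, map_smul, smul_eq_mul, smul_eq_mul, smul_eq_mul, ring_d]
      ring
    rw [Finset.sum_congr rfl fun c _ => h2 c, ← Finset.mul_sum, Finset.sum_add_distrib,
      ← Finset.mul_sum, ← Finset.mul_sum, ← map_sum, ← map_sum, ← Finset.sum_mul,
      sum_Gam_abs L.Dv (hr hs w) (sum_hr_sq hu hs w) (sum_Gam_hr hu hs hw3) Ω, sum_hr_sq hu,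
      smul_mul_assoc, one_mul, map_add, map_smul, map_smul, map_smul, smul_eq_mul, smul_eq_mul,
      smul_eq_mul, hn, hw2, hcas]
    have h3 : T / M = q ^ 2 * T := by
      rw [div_eq_iff hM'.ne']
      calc T = (q ^ 2 * M) * T := by rw [hss, one_mul]
        _ = q ^ 2 * T * M := by ring
    rw [h3]
    unfold en
    linear_combination (g ^ 2 / 2 * L.I μ (Gam (L.Dv (E := Ed D l)) Ω Ω) +
      1 / g ^ 2 * L.I μ (VT L D l * (Ω * Ω))) * hss

end

end Pool.Agent.W646.SC
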